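import Mathlib

/-!
# Manin-Mumford fails for `A`-modules on `q`-varieties

Let `K` be an algebraically closed field containing the finite field `𝔽_q` and an element `T` which
is transcendental over `𝔽_q`, and let `A = 𝔽_q[T]`. Choose `t` in `K` with `t ^ q = T` and put
`u(x) = t x + x ^ q`. The `q`-fold iterate `φ_T = u ∘ ... ∘ u` has linear coefficient `t ^ q = T`, so
it defines a Drinfeld module `φ` (of rank `q`), and `(x, y) ↦ (φ_T(x), T y + y ^ q)` defines an
`A`-module on `F = K²`. If `u^N(x) = 0` then `x` is a torsion point of `φ`, and `x ^ q` is a torsion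
point of the Carlitz module, since `(u(x)) ^ q = T x ^ q + (x ^ q) ^ q`. Hence the irreducible
`q`-variety `H = {y = x ^ q}` contains infinitely many torsion points, but it is not stable
under `Φ_T`, and every `A`-module contained in `H` is finite.
-/

set_option autoImplicit false

open Polynomial

namespace Pool.Agent.Results.MP_795114_nt.FrobeniusGraph

/-! ### The definitions of the problem -/

section defs

variable {K : Type*} [Field K]

/-- The polynomial `P` lies in `K{τ}`, that is, `P = ∑ a_i X ^ (q ^ i)`. -/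
def IsQPoly (q : ℕ) (P : K[X]) : Prop :=
  ∀ m : ℕ, P.coeff m ≠ 0 → ∃ i : ℕ, m = q ^ i

/-- The value of `∑ P_j(X_j)` at the point `x` of `K ^ n`. -/
def ev {n : ℕ} (P : Fin n → K[X]) (x : Fin n → K) : K :=
  ∑ j, (P j).eval (x j)

/-- A subset of `K ^ n` is a `q`-variety if it is the set of common zeros of a set `S` of elements
`∑ P_j(X_j)`, `P_j ∈ K{τ}`, of `Λ_n`. -/
def IsQVariety (q : ℕ) {n : ℕ} (V : Set (Fin n → K)) : Prop :=
  ∃ S : Set (Fin n → K[X]), (∀ P ∈ S, ∀ j, IsQPoly q (P j)) ∧ V = {x | ∀ P ∈ S, ev P x = 0}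

/-- The tangent space of `V`: the common zeros of the linear parts of all elements of `Λ_n` which
vanish on `V`. -/
def tangent (q : ℕ) {n : ℕ} (V : Set (Fin n → K)) : Set (Fin n → K) :=
  {x | ∀ P : Fin n → K[X], (∀ j, IsQPoly q (P j)) → (∀ y ∈ V, ev P y = 0) →
    ∑ j, (P j).coeff 1 * x j = 0}

/-- The map `ψ : F → F` is the morphism with components `f_1, ..., f_n` in `Λ_n`. -/
def Represents (q : ℕ) {n : ℕ} {F : Set (Fin n → K)} (f : Fin n → Fin n → K[X]) (ψ : F → F) :
    Prop :=
  (∀ i j, IsQPoly q (f i j)) ∧ ∀ (x : F) (i : Fin n), (ψ x : Fin n → K) i = ev (f i) x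

/-- The structure of an `A`-module on `F ⊆ K ^ n`, where `A = 𝔽_q[X]` is mapped to `K` by `X ↦ T`: a
homomorphism `Φ` of `𝔽_q`-algebras from `A` to the ring of morphisms `F → F` such that the
differential of `Φ_a` on the tangent space is the multiplication by (the image of) `a`. -/
structure AMod (Fq : Type*) [Field Fq] [Algebra Fq K] (T : K) {n : ℕ} (F : Set (Fin n → K)) where
  /-- the action -/
  Φ : Fq[X] → F → F
  isMorphism : ∀ a, ∃ f, Represents (Nat.card Fq) f (Φ a)
  map_add : ∀ a b (x : F), (Φ (a + b) x : Fin n → K) = Φ a x + Φ b x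
  map_mul : ∀ a b (x : F), Φ (a * b) x = Φ a (Φ b x)
  map_const : ∀ (c : Fq) (x : F), (Φ (C c) x : Fin n → K) = c • (x : Fin n → K)
  differential : ∀ a f, Represents (Nat.card Fq) f (Φ a) → ∀ x ∈ tangent (Nat.card Fq) F,
    ∀ i, ∑ j, (f i j).coeff 1 * x j = aeval T a * x i

variable {Fq : Type*} [Field Fq] [Algebra Fq K] {T : K} {n : ℕ} {F : Set (Fin n → K)}

/-- The set `Tor(F)` of the torsion points. -/
def AMod.Tor (M : AMod Fq T F) : Set (Fin n → K) :=
  {x | ∃ (h : x ∈ F) (a : Fq[X]), a ≠ 0 ∧ (M.Φ a ⟨x, h⟩ : Fin n → K) = 0}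

/-- `G` is an `A`-module in `F`. -/
def AMod.IsSub (M : AMod Fq T F) (G : Set (Fin n → K)) : Prop :=
  IsQVariety (Nat.card Fq) G ∧ G ⊆ F ∧ ∀ (a : Fq[X]) (x : F), (x : Fin n → K) ∈ G →
    (M.Φ a x : Fin n → K) ∈ G

/-- `Y` is covered by finitely many translates of `X`; for a subgroup `X` of a group `Y` this says
that `X` has finite index in `Y`. -/
def FiniteIndexIn {V : Type*} [AddCommGroup V] (X Y : Set V) : Prop :=
  ∃ S : Finset V, ∀ y ∈ Y, ∃ s ∈ S, y - s ∈ X

end defs

/-! ### `q`-polynomials -/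

section qpoly

variable {K : Type*} [Field K]

theorem IsQPoly.add {q : ℕ} {P Q : K[X]} (hP : IsQPoly q P) (hQ : IsQPoly q Q) :
    IsQPoly q (P + Q) := by
  intro m hm
  rw [coeff_add] at hm
  by_cases h : P.coeff m = 0
  · rw [h, zero_add] at hm
    exact hQ m hm
  · exact hP m h

theorem IsQPoly.C_mul {q : ℕ} {P : K[X]} (c : K) (hP : IsQPoly q P) : IsQPoly q (C c * P) := by
  intro m hm
  rw [coeff_C_mul] at hm
  exact hP m (right_ne_zero_of_mul hm)

theorem isQPoly_zero {q : ℕ} : IsQPoly q (0 : K[X]) := by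
  intro m hm
  simp at hm

theorem isQPoly_X {q : ℕ} : IsQPoly q (X : K[X]) := by
  intro m hm
  rw [coeff_X] at hm
  refine ⟨0, ?_⟩
  by_contra h
  apply hm
  rw [if_neg]
  intro h'
  apply h
  rw [← h', pow_zero]

theorem IsQPoly.coeff_zero {q : ℕ} (hq : 1 < q) {P : K[X]} (hP : IsQPoly q P) : P.coeff 0 = 0 := by
  by_contra h
  obtain ⟨i, hi⟩ := hP 0 h
  have : 0 < q ^ i := pow_pos (by omega) i
  omega

theorem IsQPoly.eval_zero {q : ℕ} (hq : 1 < q) {P : K[X]} (hP : IsQPoly q P) : P.eval 0 = 0 := by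
  rw [← coeff_zero_eq_eval_zero]
  exact hP.coeff_zero hq

theorem coeff_pow_q {p : ℕ} [Fact p.Prime] [CharP K p] (l : ℕ) (P : K[X]) (m : ℕ) :
    (P ^ p ^ l).coeff m = if p ^ l ∣ m then (P.coeff (m / p ^ l)) ^ p ^ l else 0 := by
  have : ExpChar K p := ExpChar.prime Fact.out
  rw [← map_iterateFrobenius_expand, coeff_map, coeff_expand (pow_pos (Fact.out : p.Prime).pos l)]
  split_ifs with h
  · rw [iterateFrobenius_def]
  · rw [map_zero]

theorem IsQPoly.pow_q {p : ℕ} [Fact p.Prime] [CharP K p] (l : ℕ) {P : K[X]}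
    (hP : IsQPoly (p ^ l) P) : IsQPoly (p ^ l) (P ^ p ^ l) := by
  intro m hm
  rw [coeff_pow_q] at hm
  split_ifs at hm with h
  · obtain ⟨k, rfl⟩ := h
    have hpos : 0 < p ^ l := pow_pos (Fact.out : p.Prime).pos l
    rw [Nat.mul_div_cancel_left _ hpos] at hm
    obtain ⟨i, hi⟩ := hP k (fun h0 => hm (by rw [h0, zero_pow hpos.ne']))
    exact ⟨i + 1, by rw [hi, pow_succ, mul_comm]⟩
  · exact absurd rfl hm

end qpoly

/-! ### Operators -/

section ops

variable {Fq : Type*} [Field Fq] [Finite Fq] {K : Type*} [Field K] [Algebra Fq K]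

theorem card_data (Fq : Type*) [Field Fq] [Finite Fq] :
    ∃ (p l : ℕ), p.Prime ∧ 0 < l ∧ CharP Fq p ∧ Nat.card Fq = p ^ l := by
  have := Fintype.ofFinite Fq
  obtain ⟨p, hp⟩ := CharP.exists Fq
  obtain ⟨l, h1, h2⟩ := FiniteField.card Fq p
  exact ⟨p, l, h1, l.pos, hp, by rw [Nat.card_eq_fintype_card, h2]⟩

theorem one_lt_card : 1 < Nat.card Fq := Finite.one_lt_card

theorem charK {p : ℕ} [CharP Fq p] : CharP K p :=
  charP_of_injective_algebraMap (algebraMap Fq K).injective p

theorem add_pow_q (x y : K) : (x + y) ^ Nat.card Fq = x ^ Nat.card Fq + y ^ Nat.card Fq := by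
  obtain ⟨p, l, hp, hl, hc, h⟩ := card_data Fq
  have := Fact.mk hp
  have : CharP K p := charK (Fq := Fq)
  rw [h]
  exact add_pow_char_pow x y p l

theorem const_pow_q (c : Fq) : (algebraMap Fq K c) ^ Nat.card Fq = algebraMap Fq K c := by
  have := Fintype.ofFinite Fq
  rw [← map_pow, Nat.card_eq_fintype_card, FiniteField.pow_card]

variable (Fq K) in
/-- The `q`-Frobenius of `K` as an `𝔽_q`-linear map. -/
noncomputable def frob : Module.End Fq K where
  toFun x := x ^ Nat.card Fq
  map_add' := add_pow_q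
  map_smul' c x := by
    rw [Algebra.smul_def, mul_pow, const_pow_q, RingHom.id_apply, Algebra.smul_def]

variable (Fq) in
/-- The operator `x ↦ c x + x ^ q`. -/
noncomputable def op (c : K) : Module.End Fq K := LinearMap.mulLeft Fq c + frob Fq K

theorem op_apply (c x : K) : op Fq c x = c * x + x ^ Nat.card Fq := rfl

/-- `L` is given by a `q`-polynomial with linear coefficient `c`. -/
def Rep (L : Module.End Fq K) (c : K) : Prop :=
  ∃ P : K[X], IsQPoly (Nat.card Fq) P ∧ P.coeff 1 = c ∧ ∀ x, L x = P.eval x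

theorem Rep.add {L L' : Module.End Fq K} {c c' : K} (h : Rep L c) (h' : Rep L' c') :
    Rep (L + L') (c + c') := by
  obtain ⟨P, h1, h2, h3⟩ := h
  obtain ⟨Q, h4, h5, h6⟩ := h'
  refine ⟨P + Q, h1.add h4, by rw [coeff_add, h2, h5], fun x => ?_⟩
  rw [LinearMap.add_apply, h3, h6, eval_add]

theorem rep_one : Rep (1 : Module.End Fq K) 1 :=
  ⟨X, isQPoly_X, coeff_X_one, fun x => by rw [Module.End.one_apply, eval_X]⟩

theorem rep_zero : Rep (0 : Module.End Fq K) 0 :=
  ⟨0, isQPoly_zero, by simp, fun x => by simp⟩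

theorem Rep.mulLeft {L : Module.End Fq K} {c : K} (h : Rep L c) (b : K) :
    Rep (LinearMap.mulLeft Fq b * L) (b * c) := by
  obtain ⟨P, h1, h2, h3⟩ := h
  refine ⟨C b * P, h1.C_mul b, by rw [coeff_C_mul, h2], fun x => ?_⟩
  rw [Module.End.mul_apply, LinearMap.mulLeft_apply, h3, eval_mul, eval_C]

theorem Rep.smul {L : Module.End Fq K} {c : K} (h : Rep L c) (b : Fq) :
    Rep (b • L) (algebraMap Fq K b * c) := by
  obtain ⟨P, h1, h2, h3⟩ := h
  refine ⟨C (algebraMap Fq K b) * P, h1.C_mul _, by rw [coeff_C_mul, h2], fun x => ?_⟩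
  rw [LinearMap.smul_apply, h3, eval_mul, eval_C, Algebra.smul_def]

theorem Rep.frob {L : Module.End Fq K} {c : K} (h : Rep L c) : Rep (frob Fq K * L) 0 := by
  obtain ⟨P, h1, h2, h3⟩ := h
  obtain ⟨p, l, hp, hl, hc, hcard⟩ := card_data Fq
  have := Fact.mk hp
  have : CharP K p := charK (Fq := Fq)
  refine ⟨P ^ Nat.card Fq, ?_, ?_, fun x => ?_⟩
  · rw [hcard] at h1 ⊢
    exact h1.pow_q l
  · rw [hcard, coeff_pow_q, if_neg]
    intro h
    have h4 := Nat.dvd_one.mp h
    have h5 := one_lt_card (Fq := Fq)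
    omega
  · rw [Module.End.mul_apply, h3, eval_pow]
    rfl

theorem Rep.op {L : Module.End Fq K} {c : K} (h : Rep L c) (b : K) : Rep (op Fq b * L) (b * c) := by
  have h1 := (h.mulLeft b).add h.frob
  rw [add_zero, ← add_mul] at h1
  exact h1

theorem rep_op_pow (b : K) (k : ℕ) : Rep (op Fq b ^ k) (b ^ k) := by
  induction k with
  | zero => simpa using rep_one (Fq := Fq) (K := K)
  | succ k ih =>
    rw [pow_succ', pow_succ']
    exact ih.op b

theorem rep_aeval (b : K) (k : ℕ) (a : Fq[X]) : Rep (aeval (op Fq b ^ k) a) (aeval (b ^ k) a) := by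
  induction a using Polynomial.induction_on' with
  | add f g hf hg =>
    rw [map_add, map_add]
    exact hf.add hg
  | monomial m c =>
    rw [aeval_monomial, aeval_monomial, ← pow_mul, ← pow_mul, ← Algebra.smul_def]
    exact (rep_op_pow b (k * m)).smul c

end ops

/-! ### The counterexample -/

section main

variable {Fq : Type*} [Field Fq] [Finite Fq] {K : Type*} [Field K] [Algebra Fq K] [Infinite K]

/-- A polynomial with linear coefficient and values those of an operator. -/
theorem rep_unique {L : Module.End Fq K} {c : K} (h : Rep L c) {P : K[X]}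
    (hP : ∀ x, L x = P.eval x) : P.coeff 1 = c := by
  obtain ⟨Q, h1, h2, h3⟩ := h
  have h4 : P = Q := Polynomial.funext fun x => by rw [← hP, h3]
  rw [h4, h2]

theorem rep_zero_of {L : Module.End Fq K} {c : K} (h : Rep L c) (hL : ∀ x, L x = 0) : c = 0 := by
  have := rep_unique h (P := 0) (fun x => by rw [hL, eval_zero])
  rw [← this, coeff_zero]

omit [Infinite K] in
theorem ev_two (P : Fin 2 → K[X]) (x : Fin 2 → K) :
    ev P x = (P 0).eval (x 0) + (P 1).eval (x 1) := by
  rw [ev, Fin.sum_univ_two]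

/-- The action of `a` on `K²`: `(x, y) ↦ (φ_a(x), C_a(y))`. -/
noncomputable def act (Fq : Type*) [Field Fq] [Finite Fq] [Algebra Fq K] (t : K) (a : Fq[X])
    (x : (Set.univ : Set (Fin 2 → K))) : (Set.univ : Set (Fin 2 → K)) :=
  ⟨![aeval (op Fq t ^ Nat.card Fq) a ((x : Fin 2 → K) 0),
    aeval (op Fq (t ^ Nat.card Fq)) a ((x : Fin 2 → K) 1)], Set.mem_univ _⟩

/-- The `A`-module `K²` with `(x, y) ↦ (u^q(x), T y + y ^ q)`, `u(x) = t x + x ^ q`, `t ^ q = T`. -/
noncomputable def theMod (Fq : Type*) [Field Fq] [Finite Fq] [Algebra Fq K] (t : K) :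
    AMod Fq (t ^ Nat.card Fq) (Set.univ : Set (Fin 2 → K)) where
  Φ := act Fq t
  isMorphism a := by
    obtain ⟨P, h1, h2, h3⟩ := rep_aeval t (Nat.card Fq) a
    obtain ⟨Q, h4, h5, h6⟩ := rep_aeval (t ^ Nat.card Fq) 1 a
    rw [pow_one] at h6
    refine ⟨![![P, 0], ![0, Q]], ?_, ?_⟩
    · intro i j
      fin_cases i <;> fin_cases j
      · exact h1
      · exact isQPoly_zero
      · exact isQPoly_zero
      · exact h4
    · intro x i
      rw [ev_two]
      fin_cases i
      · simp [act, h3]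
      · simp [act, h6]
  map_add a b x := by
    funext i
    fin_cases i <;> simp [act]
  map_mul a b x := by
    apply Subtype.ext
    funext i
    fin_cases i <;> simp [act]
  map_const c x := by
    funext i
    fin_cases i <;> simp [act]
  differential a f hf x _ i := by
    obtain ⟨h1, h2⟩ := hf
    have hq : 1 < Nat.card Fq := one_lt_card
    have key : ∀ (L L' : Module.End Fq K) (c c' : K) (P Q : K[X]), Rep L c → Rep L' c' →
        IsQPoly (Nat.card Fq) P → IsQPoly (Nat.card Fq) Q →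
        (∀ y z : K, L y + L' z = P.eval y + Q.eval z) → P.coeff 1 = c ∧ Q.coeff 1 = c' := by
      intro L L' c c' P Q hL hL' hP hQ h
      constructor
      · apply rep_unique hL
        intro y
        have := h y 0
        rwa [map_zero, hQ.eval_zero hq, add_zero, add_zero] at this
      · apply rep_unique hL'
        intro z
        have := h 0 z
        rwa [map_zero, hP.eval_zero hq, zero_add, zero_add] at this
    have hr := rep_aeval (Fq := Fq) t (Nat.card Fq) a
    have hr' := rep_aeval (Fq := Fq) (t ^ Nat.card Fq) 1 a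
    rw [pow_one, pow_one] at hr'
    rw [Fin.sum_univ_two]
    fin_cases i
    · obtain ⟨h3, h4⟩ := key _ 0 _ 0 (f 0 0) (f 0 1) hr rep_zero (h1 0 0) (h1 0 1) (by
        intro y z
        have := h2 ⟨![y, z], Set.mem_univ _⟩ 0
        rw [ev_two] at this
        simpa [act] using this)
      change (f 0 0).coeff 1 * x 0 + (f 0 1).coeff 1 * x 1 = _
      rw [h3, h4, zero_mul, add_zero]
      rfl
    · obtain ⟨h3, h4⟩ := key 0 _ 0 _ (f 1 0) (f 1 1) rep_zero hr' (h1 1 0) (h1 1 1) (by
        intro y z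
        have := h2 ⟨![y, z], Set.mem_univ _⟩ 1
        rw [ev_two] at this
        simpa [act] using this)
      change (f 1 0).coeff 1 * x 0 + (f 1 1).coeff 1 * x 1 = _
      rw [h3, h4, zero_mul, zero_add]
      rfl

/-- The `q`-variety `H = {y = x ^ q}`. -/
def graph (q : ℕ) : Set (Fin 2 → K) := {x | x 1 = x 0 ^ q}

omit [Infinite K] in
theorem graph_isQVariety {q : ℕ} : IsQVariety q (graph q : Set (Fin 2 → K)) := by
  refine ⟨{![X ^ q, -X]}, ?_, ?_⟩
  · rintro P hP j
    rw [Set.mem_singleton_iff] at hP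
    subst hP
    fin_cases j
    · intro m hm
      change (X ^ q : K[X]).coeff m ≠ 0 at hm
      rw [coeff_X_pow] at hm
      refine ⟨1, ?_⟩
      by_contra h
      apply hm
      rw [if_neg]
      rwa [pow_one] at h
    · have h := (isQPoly_X (K := K) (q := q)).C_mul (-1)
      rw [map_neg, map_one, neg_one_mul] at h
      exact h
  · ext x
    have hev : ev (![X ^ q, -X] : Fin 2 → K[X]) x = x 0 ^ q - x 1 := by
      rw [ev_two]
      change (X ^ q : K[X]).eval (x 0) + (-X : K[X]).eval (x 1) = _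
      rw [eval_pow, eval_X, eval_neg, eval_X, sub_eq_add_neg]
    constructor
    · intro h P hP
      rw [Set.mem_singleton_iff] at hP
      rw [hP, hev, sub_eq_zero]
      exact Eq.symm h
    · intro h
      have h1 := h _ rfl
      rw [hev, sub_eq_zero] at h1
      exact h1.symm

/-- `(u x) ^ q = T x ^ q + (x ^ q) ^ q`. -/
theorem op_pow_q (t x : K) :
    (op Fq t x) ^ Nat.card Fq = op Fq (t ^ Nat.card Fq) (x ^ Nat.card Fq) := by
  rw [op_apply, op_apply, add_pow_q (Fq := Fq), mul_pow]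

theorem op_pow_pow_q (t x : K) (N : ℕ) :
    ((op Fq t ^ N) x) ^ Nat.card Fq = (op Fq (t ^ Nat.card Fq) ^ N) (x ^ Nat.card Fq) := by
  induction N with
  | zero => simp
  | succ N ih => rw [pow_succ', Module.End.mul_apply, op_pow_q, ih, pow_succ', Module.End.mul_apply]

/-- The torsion points on `H`. -/
theorem mem_tor (t x : K) (N : ℕ) (h : (op Fq t ^ N) x = 0) :
    (![x, x ^ Nat.card Fq] : Fin 2 → K) ∈ (theMod Fq t).Tor := by
  refine ⟨Set.mem_univ _, X ^ N, pow_ne_zero _ X_ne_zero, ?_⟩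
  change (act Fq t (X ^ N) ⟨![x, x ^ Nat.card Fq], Set.mem_univ _⟩ : Fin 2 → K) = 0
  have hq : 1 < Nat.card Fq := one_lt_card
  funext i
  fin_cases i
  · simp only [act, map_pow, aeval_X]
    change ((op Fq t ^ Nat.card Fq) ^ N) x = 0
    rw [← pow_mul, mul_comm, ← Nat.sub_add_cancel (show 1 ≤ Nat.card Fq by omega), mul_add, mul_one,
      pow_add, Module.End.mul_apply, h, map_zero]
  · simp only [act, map_pow, aeval_X]
    change ((op Fq (t ^ Nat.card Fq)) ^ N) (x ^ Nat.card Fq) = 0
    rw [← op_pow_pow_q, h, zero_pow (by omega)]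

/-- A `q`-variety in `H` is `H` or finite. -/
theorem finite_of_ne {G : Set (Fin 2 → K)} (hG : IsQVariety (Nat.card Fq) G)
    (hH : G ⊆ graph (Nat.card Fq)) : G.Finite ∨ G = graph (Nat.card Fq) := by
  obtain ⟨S, hS, rfl⟩ := hG
  by_cases h : ∀ P ∈ S, (P 0) + (P 1).comp (X ^ Nat.card Fq) = 0
  · right
    apply hH.antisymm
    intro x hx P hP
    have h1 := congrArg (Polynomial.eval (x 0)) (h P hP)
    rw [eval_add, eval_comp, eval_pow, eval_X, eval_zero] at h1
    rw [ev_two, show x 1 = x 0 ^ Nat.card Fq from hx]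
    exact h1
  · left
    push Not at h
    obtain ⟨P, hP, hne⟩ := h
    have hfin := (Polynomial.finite_setOfPred_isRoot hne)
    refine (hfin.image fun x : K => (![x, x ^ Nat.card Fq] : Fin 2 → K)).subset ?_
    intro x hx
    refine ⟨x 0, ?_, ?_⟩
    · have h1 := hx P hP
      rw [ev_two, show x 1 = x 0 ^ Nat.card Fq from hH hx] at h1
      change eval (x 0) (P 0 + (P 1).comp (X ^ Nat.card Fq)) = 0
      rw [eval_add, eval_comp, eval_pow, eval_X]
      exact h1
    · funext i
      fin_cases i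
      · rfl
      · exact (hH hx).symm

/-- `H` is not stable under `Φ_T`. -/
theorem not_stable {t : K} (ht : Transcendental Fq (t ^ Nat.card Fq)) :
    ¬ ∀ (a : Fq[X]) (x : (Set.univ : Set (Fin 2 → K))), (x : Fin 2 → K) ∈ graph (Nat.card Fq) →
      ((theMod Fq t).Φ a x : Fin 2 → K) ∈ graph (Nat.card Fq) := by
  intro h
  have hq : 1 < Nat.card Fq := one_lt_card
  have h1 : ∀ x : K, (op Fq t ^ Nat.card Fq) x = op Fq t x := by
    intro x
    have h2 := h X ⟨![x, x ^ Nat.card Fq], Set.mem_univ _⟩ rfl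
    change (act Fq t X ⟨![x, x ^ Nat.card Fq], Set.mem_univ _⟩ : Fin 2 → K) 1 =
      ((act Fq t X ⟨![x, x ^ Nat.card Fq], Set.mem_univ _⟩ : Fin 2 → K) 0) ^ Nat.card Fq at h2
    simp only [act, aeval_X] at h2
    change op Fq (t ^ Nat.card Fq) (x ^ Nat.card Fq) = ((op Fq t ^ Nat.card Fq) x) ^ Nat.card Fq
      at h2
    rw [← op_pow_q] at h2
    have h3 : frob Fq K (op Fq t x - (op Fq t ^ Nat.card Fq) x) = 0 := by
      rw [map_sub, sub_eq_zero]
      exact h2
    have h4 : (op Fq t x - (op Fq t ^ Nat.card Fq) x) ^ Nat.card Fq = 0 := h3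
    exact (sub_eq_zero.mp (pow_eq_zero_iff (by omega) |>.mp h4)).symm
  have h5 : t ^ Nat.card Fq = t := by
    obtain ⟨P, h6, h7, h8⟩ := rep_op_pow (Fq := Fq) t 1
    rw [pow_one] at h7 h8
    have h9 := rep_unique (rep_op_pow (Fq := Fq) t (Nat.card Fq)) (P := P)
      (fun x => by rw [h1, h8])
    rw [← h9, h7]
  apply ht
  refine ⟨X ^ Nat.card Fq - X, ?_, ?_⟩
  · exact FiniteField.X_pow_card_sub_X_ne_zero Fq hq
  · rw [map_sub, map_pow, aeval_X, h5, h5, sub_self]

end main

/-- The set of torsion points on `H` is infinite. -/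
theorem infinite_tor {Fq : Type*} [Field Fq] [Finite Fq] {K : Type*} [Field K] [Algebra Fq K]
    [IsAlgClosed K] {t : K} (ht : t ≠ 0) :
    {x : K | ∃ N, (op Fq t ^ N) x = 0}.Infinite := by
  have hq : 1 < Nat.card Fq := one_lt_card
  -- the operator is surjective and has a non-zero zero
  have hsurj : ∀ y : K, ∃ x : K, op Fq t x = y := by
    intro y
    have hdeg : (X ^ Nat.card Fq + (C t * X - C y) : K[X]).natDegree = Nat.card Fq := by
      apply natDegree_eq_of_degree_eq_some
      rw [degree_add_eq_left_of_degree_lt, degree_X_pow]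
      rw [degree_X_pow]
      refine lt_of_le_of_lt (degree_sub_le _ _) (max_lt ?_ ?_)
      · refine lt_of_le_of_lt (degree_C_mul_X_le t) ?_
        exact_mod_cast hq
      · refine lt_of_le_of_lt degree_C_le ?_
        exact_mod_cast (by omega : 0 < Nat.card Fq)
    obtain ⟨x, hx⟩ := IsAlgClosed.exists_root (X ^ Nat.card Fq + (C t * X - C y) : K[X]) (by
      intro h0
      have h1 := natDegree_eq_zero_iff_degree_le_zero.mpr h0.le
      omega)
    refine ⟨x, ?_⟩
    rw [IsRoot.def] at hx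
    simp only [eval_add, eval_pow, eval_X, eval_sub, eval_mul, eval_C] at hx
    rw [op_apply]
    linear_combination hx
  obtain ⟨x1, hx1, hx10⟩ : ∃ x : K, op Fq t x = 0 ∧ x ≠ 0 := by
    obtain ⟨x, hx⟩ := IsAlgClosed.exists_pow_nat_eq (-t) (show 0 < Nat.card Fq - 1 by omega)
    refine ⟨x, ?_, ?_⟩
    · rw [op_apply, ← Nat.sub_add_cancel (show 1 ≤ Nat.card Fq by omega), pow_succ, hx]
      ring
    · rintro rfl
      rw [zero_pow (by omega)] at hx
      exact ht (neg_eq_zero.mp hx.symm)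
  choose r hr using hsurj
  have hpow : ∀ N, (op Fq t ^ N) (r^[N] x1) = x1 := by
    intro N
    induction N with
    | zero => rfl
    | succ N ih => rw [Function.iterate_succ_apply', pow_succ, Module.End.mul_apply, hr, ih]
  refine Set.infinite_of_injective_forall_mem (f := fun N => r^[N] x1) ?_ ?_
  · intro M N hMN
    wlog hlt : M < N generalizing M N with H
    · rcases lt_or_eq_of_le (not_lt.mp hlt) with h | h
      · exact (H hMN.symm h).symm
      · exact h.symm
    exfalso
    have h1 : (op Fq t ^ (M + 1)) (r^[M] x1) = 0 := by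
      rw [pow_succ', Module.End.mul_apply, hpow, hx1]
    have hMN' : r^[M] x1 = r^[N] x1 := hMN
    rw [hMN'] at h1
    apply hx10
    rw [← hpow N, show N = (N - (M + 1)) + (M + 1) by omega, pow_add, Module.End.mul_apply,
      ← show N = (N - (M + 1)) + (M + 1) by omega, h1, map_zero]
  · intro N
    refine ⟨N + 1, ?_⟩
    change (op Fq t ^ (N + 1)) (r^[N] x1) = 0
    rw [pow_succ', Module.End.mul_apply, hpow, hx1]

/-- **Q1 is false**, for every `q` and every algebraically closed `K`. Let `𝔽_q` be a finite field, `K`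
an algebraically closed field containing it and `T` an element of `K` transcendental over `𝔽_q`. There
is an `A`-module structure `Φ` on the `q`-variety `F = K²`, with
`Φ_T(x, y) = (u^q(x), T y + y ^ q)`, where `u(x) = t x + x ^ q` and `t ^ q = T`, such that for the
`q`-variety `H = {y = x ^ q}` the set `H ∩ Tor(F)` is infinite, every `A`-module `G` in `F` with
`G ⊆ H` is finite, and in particular `G ∩ Tor(F)` never has finite index in `H ∩ Tor(F)`. -/
theorem result (Fq : Type*) [Field Fq] [Finite Fq] (K : Type*) [Field K] [IsAlgClosed K]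
    [Algebra Fq K] (T : K) (hT : Transcendental Fq T) :
    IsQVariety (Nat.card Fq) (Set.univ : Set (Fin 2 → K)) ∧
    ∃ M : AMod Fq T (Set.univ : Set (Fin 2 → K)),
      (∃ t : K, t ^ Nat.card Fq = T ∧ ∀ x : (Set.univ : Set (Fin 2 → K)),
        (M.Φ X x : Fin 2 → K) = ![(fun z => t * z + z ^ Nat.card Fq)^[Nat.card Fq] ((x : Fin 2 → K) 0),
          T * (x : Fin 2 → K) 1 + (x : Fin 2 → K) 1 ^ Nat.card Fq]) ∧
      ∃ H : Set (Fin 2 → K), H = {x | x 1 = x 0 ^ Nat.card Fq} ∧
        IsQVariety (Nat.card Fq) H ∧ H ⊆ Set.univ ∧ (H ∩ M.Tor).Infinite ∧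
        (∀ G : Set (Fin 2 → K), M.IsSub G → G ⊆ H → G.Finite) ∧
        ∀ G : Set (Fin 2 → K), M.IsSub G → G ⊆ H → ¬ FiniteIndexIn (G ∩ M.Tor) (H ∩ M.Tor) := by
  have hq : 1 < Nat.card Fq := one_lt_card
  refine ⟨⟨∅, by simp, by simp⟩, ?_⟩
  obtain ⟨t, rfl⟩ := IsAlgClosed.exists_pow_nat_eq T (show 0 < Nat.card Fq by omega)
  have ht0 : t ≠ 0 := by
    rintro rfl
    apply hT
    rw [zero_pow (by omega)]
    exact isAlgebraic_zero
  have hinf : Infinite K := IsAlgClosed.instInfinite
  have h1 : (graph (Nat.card Fq) ∩ (theMod Fq t).Tor : Set (Fin 2 → K)).Infinite := by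
    refine Set.Infinite.mono ?_ ((infinite_tor (Fq := Fq) ht0).image
      (f := fun x : K => (![x, x ^ Nat.card Fq] : Fin 2 → K)) ?_)
    · rintro _ ⟨x, ⟨N, hN⟩, rfl⟩
      exact ⟨rfl, mem_tor t x N hN⟩
    · intro x _ y _ hxy
      exact congrFun hxy 0
  have h2 : ∀ G : Set (Fin 2 → K), (theMod Fq t).IsSub G → G ⊆ graph (Nat.card Fq) →
      G.Finite := by
    rintro G ⟨hG, _, hst⟩ hGH
    rcases finite_of_ne hG hGH with h | h
    · exact h
    · subst h
      exact absurd hst (not_stable hT)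
  refine ⟨theMod Fq t, ⟨t, rfl, ?_⟩, graph (Nat.card Fq), rfl, graph_isQVariety, Set.subset_univ _,
    h1, h2, ?_⟩
  · intro x
    change (act Fq t X x : Fin 2 → K) = _
    funext i
    fin_cases i
    · simp only [act, aeval_X]
      change (op Fq t ^ Nat.card Fq) ((x : Fin 2 → K) 0) =
        (fun z => t * z + z ^ Nat.card Fq)^[Nat.card Fq] ((x : Fin 2 → K) 0)
      rw [Module.End.pow_apply]
      rfl
    · simp only [act, aeval_X]
      rfl
  · rintro G hG hGH ⟨S, hS⟩
    apply h1
    have hfin := h2 G hG hGH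
    refine ((S.finite_toSet.prod hfin).image fun z : (Fin 2 → K) × (Fin 2 → K) =>
      z.2 + z.1).subset ?_
    intro y hy
    obtain ⟨s, hs, hys⟩ := hS y hy
    exact ⟨(s, y - s), ⟨hs, hys.1⟩, by simp⟩

end Pool.Agent.Results.MP_795114_nt.FrobeniusGraph
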